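import Mathlib

namespace Pool.Agent.Results.MP_f76cdc_ag.Q2

open Polynomial

/-- `g dz = df / f` for some nonzero rational function `f = p / q`. -/
def IsLog {k : Type*} [Field k] (g : RatFunc k) : Prop :=
  ∃ p q : k[X], p ≠ 0 ∧ q ≠ 0 ∧
    g = algebraMap k[X] (RatFunc k) (derivative p) / algebraMap k[X] (RatFunc k) p
      - algebraMap k[X] (RatFunc k) (derivative q) / algebraMap k[X] (RatFunc k) q

/-- `V dz` is a space `L_(m+1,n)`. -/
def IsL (p : ℕ) (k : Type*) [Field k] [Algebra (ZMod p) k] (m n : ℕ)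
    (V : Submodule (ZMod p) (RatFunc k)) : Prop :=
  Module.finrank (ZMod p) V = n ∧
    ∀ g ∈ V, g ≠ 0 →
      IsLog g ∧ (∀ x : k, g.num.eval x ≠ 0) ∧ -g.intDegree - 2 = (m : ℤ) - 1

section
variable {k : Type*} [Field k]

lemma IsLog.neg {g : RatFunc k} (h : IsLog g) : IsLog (-g) := by
  obtain ⟨p, q, hp, hq, rfl⟩ := h
  exact ⟨q, p, hq, hp, by ring⟩

lemma IsLog.add {g h : RatFunc k} (hg : IsLog g) (hh : IsLog h) : IsLog (g + h) := by
  obtain ⟨p, q, hp, hq, rfl⟩ := hg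
  obtain ⟨r, s, hr, hs, rfl⟩ := hh
  refine ⟨p * r, q * s, mul_ne_zero hp hr, mul_ne_zero hq hs, ?_⟩
  have e1 : algebraMap k[X] (RatFunc k) p ≠ 0 := by simpa using hp
  have e2 : algebraMap k[X] (RatFunc k) q ≠ 0 := by simpa using hq
  have e3 : algebraMap k[X] (RatFunc k) r ≠ 0 := by simpa using hr
  have e4 : algebraMap k[X] (RatFunc k) s ≠ 0 := by simpa using hs
  simp only [derivative_mul, map_add, map_mul]
  field_simp
  ring

lemma isLog_of (P U V : k[X]) (h1 : U * V = P) (h2 : derivative U * V - U * derivative V = 1) :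
    IsLog (algebraMap k[X] (RatFunc k) P)⁻¹ := by
  have hU : U ≠ 0 := by
    rintro rfl
    simp at h2
  have hV : V ≠ 0 := by
    rintro rfl
    simp at h2
  refine ⟨U, V, hU, hV, ?_⟩
  have e1 : algebraMap k[X] (RatFunc k) U ≠ 0 := by simpa using hU
  have e2 : algebraMap k[X] (RatFunc k) V ≠ 0 := by simpa using hV
  have h3 := congrArg (algebraMap k[X] (RatFunc k)) h2
  simp only [map_sub, map_mul, map_one] at h3
  rw [← h1, map_mul]
  field_simp
  linear_combination (-1 : RatFunc k) * h3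

def Good (g : RatFunc k) : Prop :=
  g ≠ 0 ∧ IsLog g ∧ (∀ x : k, g.num.eval x ≠ 0) ∧ -g.intDegree - 2 = ((14 : ℕ) : ℤ) - 1

lemma Good.neg {g : RatFunc k} (h : Good g) : Good (-g) := by
  obtain ⟨h0, h1, h2, h3⟩ := h
  refine ⟨neg_ne_zero.2 h0, h1.neg, fun x => ?_, by rw [RatFunc.intDegree_neg]; exact h3⟩
  intro hx
  have h := RatFunc.num_div_dvd (-g.num) (RatFunc.denom_ne_zero g)
  rw [map_neg, neg_div, RatFunc.num_div_denom] at h
  obtain ⟨c, hc⟩ := h
  have := congrArg (eval x) hc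
  simp [hx, h2 x] at this

lemma good_inv (P : k[X]) (hd : P.natDegree = 15) (hl : IsLog (algebraMap k[X] (RatFunc k) P)⁻¹) :
    Good (algebraMap k[X] (RatFunc k) P)⁻¹ := by
  have hP : P ≠ 0 := by
    rintro rfl
    simp at hd
  refine ⟨inv_ne_zero (by simpa using hP), hl, fun x hx => ?_, ?_⟩
  · have h := RatFunc.num_div_dvd (1 : k[X]) hP
    rw [map_one, one_div] at h
    obtain ⟨c, hc⟩ := h
    have := congrArg (eval x) hc
    simp [hx] at this
  · rw [RatFunc.intDegree_inv, RatFunc.intDegree_polynomial, hd]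
    norm_num

lemma deg5 (a b c d e : k) (ha : a ≠ 0) :
    (C a * X ^ 5 + C b * X ^ 3 + C c * X ^ 2 + C d * X + C e : k[X]).natDegree = 5 := by
  compute_degree!

noncomputable def pA (i : k) : k[X] := -X - X^2 - C i * X^2 - X^5 + C i * X^5
noncomputable def pB (i : k) : k[X] := -C i - X + C i * X - C i * X^3 + C i * X^5

lemma log1 (i : k) (hI : (C i : k[X]) ^ 2 + 1 = 0) (h3 : (3 : k[X]) = 0) :
    IsLog (algebraMap k[X] (RatFunc k) (pB i * (pB i ^ 2 - pA i ^ 2)))⁻¹ := by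
  apply isLog_of _ (1 + C i * X + X^3 - X^4 - X^6 + C i * X^6 + X^9 - C i * X^9 - X^10 - C i * X^10 + X^12) (C i + X + X^3 - C i * X^3)
  · unfold pA pB
    linear_combination (C i + 4 * X - 3 * C i * X - 6 * X^2 + 3 * C i * X^2 + X^3 + 2 * C i * X^3 + 5 * X^4 - 7 * C i * X^4 - 5 * X^5 + C i * X^5 - 5 * X^6 + 9 * C i * X^6 + 5 * X^7 - 5 * C i * X^7 + 4 * X^8 - 8 * C i * X^8 - 4 * X^9 + 8 * C i * X^9 + X^10 + 4 * C i * X^10 - 2 * X^11 - 5 * C i * X^11 + X^12 - 2 * C i * X^12 + 3 * X^13 + 2 * C i * X^13 - 2 * X^15) * hI + (-X + C i * X + 2 * X^2 - 2 * C i * X^3 - 2 * X^4 + 2 * C i * X^4 + X^5 + 2 * X^6 - 5 * C i * X^6 - 3 * X^7 + 2 * C i * X^7 - 2 * X^8 + 4 * C i * X^8 + X^9 - 2 * C i * X^9 - 3 * C i * X^10 + 3 * C i * X^11 + C i * X^12 - X^13 - C i * X^13 + X^15) * h3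
  · have d1 : derivative (1 + C i * X + X^3 - X^4 - X^6 + C i * X^6 + X^9 - C i * X^9 - X^10 - C i * X^10 + X^12 : k[X]) = C i + 3 * X^2 - 4 * X^3 - 6 * X^5 + 6 * C i * X^5 + 9 * X^8 - 9 * C i * X^8 - 10 * X^9 - 10 * C i * X^9 + 12 * X^11 := by
      simp [map_ofNat]
      ring
    have d2 : derivative (C i + X + X^3 - C i * X^3 : k[X]) = 1 + 3 * X^2 - 3 * C i * X^2 := by
      simp [map_ofNat]
      ring
    rw [d1, d2]
    linear_combination (1 + 2 * X^3 + 6 * X^5 - 12 * X^8 - 10 * X^9 + 6 * X^11 + 7 * X^12) * hI + (-1 - X^2 + 2 * C i * X^2 - 2 * C i * X^3 - X^4 - 2 * X^5 - 2 * C i * X^5 - 2 * X^6 + 2 * C i * X^6 + 3 * X^8 + 5 * C i * X^8 + 6 * X^9 - 6 * C i * X^9 - 3 * X^10 - 3 * C i * X^10 - X^12 + 3 * X^14 - 3 * C i * X^14) * h3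

lemma log2 (i : k) (hI : (C i : k[X]) ^ 2 + 1 = 0) (h3 : (3 : k[X]) = 0) :
    IsLog (algebraMap k[X] (RatFunc k) (pA i * (pB i ^ 2 - pA i ^ 2)))⁻¹ := by
  apply isLog_of _ (-C i * X + X^3 - C i * X^3 + X^4 - C i * X^4 - X^6 + C i * X^6 + X^7 - C i * X^7 + X^9) (C i + X - C i * X - C i * X^3 - X^4 + C i * X^4 - X^6)
  · unfold pA pB
    linear_combination (C i * X^2 - 2 * C i * X^3 + 2 * X^4 + C i * X^4 - 2 * X^5 + C i * X^5 - 7 * X^6 - C i * X^6 + 2 * X^7 - 3 * C i * X^7 + 9 * X^8 + C i * X^8 - 4 * X^9 + 5 * C i * X^9 - 2 * X^10 + 2 * X^11 - 3 * C i * X^11 + 4 * X^12 - 2 * C i * X^12 - 2 * X^13 + 2 * C i * X^13 - 2 * X^15) * hI + (C i * X^3 - X^4 - 2 * C i * X^4 - 2 * C i * X^5 + 2 * X^6 - 2 * X^7 + 2 * C i * X^7 - 5 * X^8 - C i * X^8 - C i * X^9 + X^10 - C i * X^10 - 2 * X^11 + 3 * C i * X^11 - 2 * X^12 + C i * X^12 + C i * X^15) * h3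
  · have d1 : derivative (-C i * X + X^3 - C i * X^3 + X^4 - C i * X^4 - X^6 + C i * X^6 + X^7 - C i * X^7 + X^9 : k[X]) = -C i + 3 * X^2 - 3 * C i * X^2 + 4 * X^3 - 4 * C i * X^3 - 6 * X^5 + 6 * C i * X^5 + 7 * X^6 - 7 * C i * X^6 + 9 * X^8 := by
      simp [map_ofNat]
      ring
    have d2 : derivative (C i + X - C i * X - C i * X^3 - X^4 + C i * X^4 - X^6 : k[X]) = 1 - C i - 3 * C i * X^2 - 4 * X^3 + 4 * C i * X^3 - 6 * X^5 := by
      simp [map_ofNat]
      ring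
    rw [d1, d2]
    linear_combination (-1 - 3 * X^2 - 4 * X^3 + 6 * X^4 + 6 * X^5 - 10 * X^6 + 6 * X^7 - 3 * X^8 + 6 * X^9 - 3 * X^10) * hI + (X^2 + C i * X^2 + 2 * X^3 - X^4 - 3 * C i * X^4 - 2 * X^5 - 2 * C i * X^5 + 2 * X^6 + 3 * C i * X^6 - 4 * C i * X^7 + 2 * X^8 + 3 * C i * X^8 + 2 * X^9 - 6 * C i * X^9 + 2 * C i * X^10 - 2 * C i * X^11 - 2 * X^12 + 2 * C i * X^12 - X^14) * h3

end

theorem result (k : Type*) [Field k] [IsAlgClosed k] [Algebra (ZMod 3) k] :
    (∃ V : Submodule (ZMod 3) (RatFunc k), IsL 3 k 14 2 V) ∧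
      ¬ (3 ^ (2 - 1) * (3 - 1) ∣ 14 + 1) := by
  refine ⟨?_, by decide⟩
  have h3k : (3 : k) = 0 := by
    have : algebraMap (ZMod 3) k 3 = 0 := by
      rw [show (3 : ZMod 3) = 0 from by decide, map_zero]
    simpa [map_ofNat] using this
  have h3 : (3 : k[X]) = 0 := by
    have := congrArg (C : k → k[X]) h3k
    simpa [map_ofNat] using this
  obtain ⟨i, hi⟩ : ∃ i : k, i * i = -1 := by
    obtain ⟨z, hz⟩ := IsAlgClosed.exists_eq_mul_self (-1 : k)
    exact ⟨z, hz.symm⟩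
  have hI : (C i : k[X]) ^ 2 + 1 = 0 := by
    have := congrArg (C : k → k[X]) hi
    simp only [map_mul, map_neg, map_one] at this
    linear_combination this
  have n1 : i ≠ 0 := by
    rintro rfl
    simp at hi
  have n2 : i - 1 ≠ 0 := by
    intro h
    apply one_ne_zero (α := k)
    linear_combination (-1 : k) * hi + (i + 1) * h + h3k
  have n3 : 2 * i - 1 ≠ 0 := by
    intro h
    apply one_ne_zero (α := k)
    linear_combination (-4 : k) * hi + (2 * i + 1) * h + 2 * h3k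
  have dA : (pA i).natDegree = 5 := by
    rw [← deg5 (i - 1) 0 (-1 - i) (-1) 0 n2]
    congr 1
    unfold pA
    simp only [map_sub, map_neg, map_one, map_zero]
    ring
  have dB : (pB i).natDegree = 5 := by
    rw [← deg5 i (-i) 0 (i - 1) (-i) n1]
    congr 1
    unfold pB
    simp only [map_sub, map_neg, map_one, map_zero]
    ring
  have dS : (pB i + pA i).natDegree = 5 := by
    rw [← deg5 (2 * i - 1) (-i) (-1 - i) (i - 2) (-i) n3]
    congr 1
    unfold pA pB
    simp only [map_sub, map_neg, map_one, map_mul, map_ofNat]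
    ring
  have dD : (pB i - pA i).natDegree = 5 := by
    rw [← deg5 1 (-i) (1 + i) i (-i) one_ne_zero]
    congr 1
    unfold pA pB
    simp only [map_add, map_neg, map_one]
    ring
  have l1 := log1 i hI h3
  have l2 := log2 i hI h3
  generalize pA i = A at *
  generalize pB i = B at *
  have nz : ∀ P : k[X], P.natDegree = 5 → P ≠ 0 := by
    rintro P h rfl
    simp at h
  have dg : ∀ P Q R : k[X], P.natDegree = 5 → Q.natDegree = 5 → R.natDegree = 5 →
      (P * (Q * R)).natDegree = 15 := by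
    intro P Q R hP hQ hR
    rw [natDegree_mul (nz P hP) (mul_ne_zero (nz Q hQ) (nz R hR)),
      natDegree_mul (nz Q hQ) (nz R hR), hP, hQ, hR]
  have sq : B ^ 2 - A ^ 2 = (B + A) * (B - A) := by ring
  rw [sq] at l1 l2
  have eA : algebraMap k[X] (RatFunc k) A ≠ 0 := by simpa using nz A dA
  have eB : algebraMap k[X] (RatFunc k) B ≠ 0 := by simpa using nz B dB
  have eS : algebraMap k[X] (RatFunc k) B + algebraMap k[X] (RatFunc k) A ≠ 0 := by
    rw [← map_add]
    exact RatFunc.algebraMap_ne_zero (nz _ dS)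
  have eD : algebraMap k[X] (RatFunc k) B - algebraMap k[X] (RatFunc k) A ≠ 0 := by
    rw [← map_sub]
    exact RatFunc.algebraMap_ne_zero (nz _ dD)
  have G1 := good_inv _ (dg _ _ _ dB dS dD) l1
  have G2 := good_inv _ (dg _ _ _ dA dS dD) l2
  have s3 : (algebraMap k[X] (RatFunc k) (B * ((B + A) * (B - A))))⁻¹ +
      (algebraMap k[X] (RatFunc k) (A * ((B + A) * (B - A))))⁻¹ =
      (algebraMap k[X] (RatFunc k) (A * (B * (B - A))))⁻¹ := by
    simp only [map_mul, map_add, map_sub]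
    field_simp
    ring
  have s4 : -(algebraMap k[X] (RatFunc k) (B * ((B + A) * (B - A))))⁻¹ +
      (algebraMap k[X] (RatFunc k) (A * ((B + A) * (B - A))))⁻¹ =
      (algebraMap k[X] (RatFunc k) (A * (B * (B + A))))⁻¹ := by
    simp only [map_mul, map_add, map_sub]
    field_simp
    ring
  have G3 := good_inv _ (dg _ _ _ dA dB dD) (s3 ▸ l1.add l2)
  have G4 := good_inv _ (dg _ _ _ dA dB dS) (s4 ▸ l1.neg.add l2)
  rw [← s3] at G3
  rw [← s4] at G4
  generalize (algebraMap k[X] (RatFunc k) (B * ((B + A) * (B - A))))⁻¹ = g at *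
  generalize (algebraMap k[X] (RatFunc k) (A * ((B + A) * (B - A))))⁻¹ = h at *
  have key : ∀ a b : ZMod 3, (a = 0 ∧ b = 0) ∨ Good (a • g + b • h) := by
    have tri : ∀ a : ZMod 3, a = 0 ∨ a = 1 ∨ a = -1 := by decide
    intro a b
    rcases tri a with rfl | rfl | rfl <;> rcases tri b with rfl | rfl | rfl
    · exact Or.inl ⟨rfl, rfl⟩
    · right; simpa using G2
    · right; simpa using G2.neg
    · right; simpa using G1
    · right; simpa using G3
    · right
      have := G4.neg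
      rw [neg_add, neg_neg] at this
      simpa using this
    · right; simpa using G1.neg
    · right; simpa using G4
    · right
      have := G3.neg
      rw [neg_add] at this
      simpa using this
  refine ⟨Submodule.span (ZMod 3) (Set.range ![g, h]), ?_, ?_⟩
  · rw [finrank_span_eq_card]
    · simp
    · rw [LinearIndependent.pair_iff]
      intro a b hab
      rcases key a b with h0 | h0
      · exact h0
      · exact absurd hab h0.1
  · intro x hx hx0
    rw [Submodule.mem_span_range_iff_exists_fun] at hx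
    obtain ⟨c, rfl⟩ := hx
    simp only [Fin.sum_univ_two, Matrix.cons_val_zero, Matrix.cons_val_one] at hx0 ⊢
    rcases key (c 0) (c 1) with h0 | h0
    · rw [h0.1, h0.2] at hx0
      simp at hx0
    · exact h0.2

end Pool.Agent.Results.MP_f76cdc_ag.Q2
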